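import Pool.Agent.H18.XX.TB
import Pool.Agent.H66.IP.TC
import Pool.Agent.H66.IQ.TE

/-!
# Rows ONE and PFR of the board `exh_modules`

The model is `Pool/Agent/H20/AVH/PF2.lean`.
-/

set_option autoImplicit false

namespace Pool.Agent.H12.XX

open Finset Pool.Agent.H6.NB Pool.Agent.H70.OQ Pool.Agent.H70.EH Pool.Agent.H70.EI Pool.Agent.H78.XQ
open Pool.Agent.H66.IP (Local ins sp dm IsZ scl mBp m0p)
open Pool.Agent.H66.IQ Pool.Agent.H66.AV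
open Pool.Agent.H18.XX

theorem Cl_succ {V : Type} {S : ℕ} (hS : 1 ≤ S) {d : ℕ} {f : (V → Bool) → Bool}
    (h : Cl V S d f) : Cl V S (d + 1) f :=
  ⟨1, fun _ => f, fun _ => true, hS, fun _ => h, fun _ =>
    ⟨fun hy => ⟨0, hy⟩, fun ⟨_, hy⟩ => hy⟩⟩

theorem Cl_mono {V : Type} {S : ℕ} (hS : 1 ≤ S) {d d' : ℕ} (hd : d ≤ d') {f : (V → Bool) → Bool}
    (h : Cl V S d f) : Cl V S d' f := by
  induction hd with
  | refl => exact h
  | step _ ih => exact Cl_succ hS ih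

theorem Cb_mono {V : Type} {S : ℕ} (hS : 1 ≤ S) {d d' : ℕ} (hd : d ≤ d') {t : Tr V}
    (h : t.Cb S d) : t.Cb S d' := by
  induction t with
  | lf a => exact Cl_mono hS hd h
  | av l r hl hr => exact ⟨hl h.1, hr h.2⟩
  | ch l r hl hr => exact ⟨hl h.1, hr h.2⟩

theorem ic_bi (p : Prop) [Decidable p] : ic p = bi (decide p) := by
  unfold ic bi
  by_cases h : p
  · simp [h]
  · simp [h]

/-- a function of the contents which is a game in every copy and in the correction string does not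
see the block -/
theorem rh_of (hIZU : Pool.Agent.H66.IP.T_IZU) (hSPF : Pool.Agent.H66.IP.T_SPF) (hRBF : T_RBF)
    (hCLO : T_CLO) (V : ℕ → Exa) (E : Finset (ℕ × List Bool))
    (O : (∀ p : {a // a ∈ E}, Cz V p.1) → (List Bool → Bool) → List Bool → Bool)
    (hO : IsZ (dm (lx V)) E O) (g : List Bool → Bool) (p : {a // a ∈ E})
    (Φ : (∀ p : {a // a ∈ E}, Cz V p.1) → ℝ)
    (h1 : ∀ (P : ∀ p : {a // a ∈ E}, Cz V p.1) (c : Cz V p.1) (u),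
      ∃ t : Tr (VV (qs (sp (lx V) p.1))), t.dp ≤ bd (scl (lx V) p.1) ∧
        t.Cb (2 ^ bd (scl (lx V) p.1)) (scl (lx V) p.1 + 2) ∧
        ∀ y, Φ (Function.update P p ((Function.update c.1 u y, c.2) : Cz V p.1)) = t.ev y)
    (h2 : ∀ (P : ∀ p : {a // a ∈ E}, Cz V p.1) (c : Cz V p.1),
      ∃ t : Tr (Fin (wln (sp (lx V) p.1)) → Bool), t.dp ≤ bd (scl (lx V) p.1) ∧
        t.Cb (2 ^ bd (scl (lx V) p.1)) (scl (lx V) p.1 + 2) ∧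
        ∀ y, Φ (Function.update P p ((c.1, y) : Cz V p.1)) = t.ev y) :
    RhZ V E O g p Φ := by
  classical
  obtain ⟨-, h20, hSz, -, -, -⟩ := hSPF (lx V)
  obtain ⟨hI, -⟩ := hIZU (dm (lx V)) E O hO
  intro κ P
  obtain ⟨-, hI2, hI3⟩ := hI P g p.1 p.2
  have h3 := hRBF (scl (lx V) p.1) _ _ _ _ (hSz p.1) (κ p)
    (fun c => decide (∀ i : {a // a ∈ E}, scl (lx V) i.1 ≤ scl (lx V) p.1 →
      ax V (O (Function.update P p c) g) i.1 = κ i))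
    (fun c => Φ (Function.update P p c)) (fun P' u h' => by
      have := hCLO _ V E (scl (lx V) p.1) _ κ (hI2 (P', h') u) (h20 p.1).1
      exact this) (fun P' => by
      have := hCLO _ V E (scl (lx V) p.1) _ κ (hI3 (P', fun _ => false)) (h20 p.1).1
      exact this) (fun P' u h' => h1 P (P', h') u) (fun P' => h2 P (P', fun _ => false))
  simp only [ic_bi]
  exact h3

/-- ONE -/
theorem pf_ONE (hIZU : Pool.Agent.H66.IP.T_IZU) (hSPF : Pool.Agent.H66.IP.T_SPF) (hRBF : T_RBF)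
    (hCLO : T_CLO) : Pool.Agent.H18.XX.T_ONE := by
  intro V E O hO g p
  have hS : ∀ r : ℕ, 1 ≤ 2 ^ bd r := fun r => Nat.one_le_two_pow
  refine rh_of hIZU hSPF hRBF hCLO V E O hO g p _ ?_ ?_
  · intro P c u
    exact ⟨.lf ⟨fun _ => true, fun _ => ∅, fun _ _ _ => ⟨rfl, rfl⟩⟩, Nat.zero_le _,
      Cl_mono (hS _) (Nat.zero_le _) (Or.inl ⟨true, fun _ => rfl⟩), fun y => rfl⟩
  · intro P c
    exact ⟨.lf ⟨fun _ => true, fun _ => ∅, fun _ _ _ => ⟨rfl, rfl⟩⟩, Nat.zero_le _,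
      Cl_mono (hS _) (Nat.zero_le _) (Or.inl ⟨true, fun _ => rfl⟩), fun y => rfl⟩

/-- PFR -/
theorem pf_PFR (hPTR : Pool.Agent.H66.IQ.T_PTR) (hTPR : T_TPR) (hIZU : Pool.Agent.H66.IP.T_IZU)
    (hSPF : Pool.Agent.H66.IP.T_SPF) (hRBF : T_RBF) (hCLO : T_CLO) : T_PFR := by
  intro V k
  refine ⟨2 ^ k, fun n hn G₁ G₂ hG₁ hG₂ => ?_⟩
  intro E O hO g g₁ g₂ p hsc
  obtain ⟨hI, -⟩ := hIZU (dm (lx V)) E O hO
  set r := scl (lx V) p.1 with hr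
  set L := Nat.log 2 n with hL
  have hkL : k ≤ L := Nat.le_log_of_pow_le (by norm_num) hn
  have h1 : 2 * L ^ 2 + 1 ≤ 2 * (r ^ 2 - r) := by
    have h2 : L + 19 ≤ r := hsc
    have h3 : r ^ 2 - r = r * (r - 1) := by
      rw [Nat.mul_sub, mul_one, pow_two]
    have h4 : (L + 19) * (L + 18) ≤ r * (r - 1) := Nat.mul_le_mul h2 (by omega)
    rw [h3]
    nlinarith
  have hm : 2 ^ (2 * L ^ 2) + 2 ^ (2 * L ^ 2) ≤ bd r := by
    calc 2 ^ (2 * L ^ 2) + 2 ^ (2 * L ^ 2) = 2 ^ (2 * L ^ 2 + 1) := by ring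
      _ ≤ _ := Nat.pow_le_pow_right (by norm_num) h1
  have h1m : 1 ≤ 2 ^ (2 * L ^ 2) := Nat.one_le_two_pow
  have hS2 : 2 ≤ 2 ^ bd r := by
    calc 2 = 2 ^ 1 := (pow_one 2).symm
      _ ≤ 2 ^ bd r := Nat.pow_le_pow_right (by norm_num) (by omega)
  have hSm : 2 ^ (2 ^ (2 * L ^ 2) + 1) ≤ 2 ^ bd r :=
    Nat.pow_le_pow_right (by norm_num) (by omega)
  have hkr : k + 5 + 2 ≤ r + 2 := by omega
  refine rh_of hIZU hSPF hRBF hCLO V E O hO g p _ ?_ ?_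
  · intro P c u
    obtain ⟨-, hI2, -⟩ := hI P g₁ p.1 p.2
    obtain ⟨-, hJ2, -⟩ := hI P g₂ p.1 p.2
    obtain ⟨t₁, h1, h2, h3⟩ := hPTR _ k (2 ^ (2 * L ^ 2)) (2 ^ bd r) G₁ _ hS2 hSm
      (hI2 c u) hG₁
    obtain ⟨t₂, j1, j2, j3⟩ := hPTR _ k (2 ^ (2 * L ^ 2)) (2 ^ bd r) G₂ _ hS2 hSm
      (hJ2 c u) hG₂
    obtain ⟨t, l1, l2, l3⟩ := hTPR _ t₁ t₂
    refine ⟨t, l1.trans ((Nat.add_le_add h1 j1).trans hm),
      Cb_mono (le_trans (by norm_num) hS2) hkr (l2 _ _ hS2 h2 j2), fun y => ?_⟩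
    rw [l3 y, h3 y, j3 y]
  · intro P c
    obtain ⟨-, -, hI3⟩ := hI P g₁ p.1 p.2
    obtain ⟨-, -, hJ3⟩ := hI P g₂ p.1 p.2
    obtain ⟨t₁, h1, h2, h3⟩ := hPTR _ k (2 ^ (2 * L ^ 2)) (2 ^ bd r) G₁ _ hS2 hSm
      (hI3 c) hG₁
    obtain ⟨t₂, j1, j2, j3⟩ := hPTR _ k (2 ^ (2 * L ^ 2)) (2 ^ bd r) G₂ _ hS2 hSm
      (hJ3 c) hG₂
    obtain ⟨t, l1, l2, l3⟩ := hTPR _ t₁ t₂
    refine ⟨t, l1.trans ((Nat.add_le_add h1 j1).trans hm),
      Cb_mono (le_trans (by norm_num) hS2) hkr (l2 _ _ hS2 h2 j2), fun y => ?_⟩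
    rw [l3 y, h3 y, j3 y]

end Pool.Agent.H12.XX
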